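import Pool.Agent.Helper11.LE.Goals3
import Pool.Agent.Helper42.RD.EXA

/-!
# Project LE (MP_fc6b1e_nt): packet L_INI

The initial state.
-/

namespace Pool.Agent.Helper98.LE

open NumberField Polynomial Module IsDedekindDomain TensorProduct Pool.Agent.Helper51.SigLeo
open Pool.Agent.Helper51.RP Pool.Agent.Helper42.RD Pool.Agent.Helper11.LE
open Pool.Agent.Helper38.RS (pz gs hf Gf absN)
open Pool.Agent.Helper40.RS (bel conj_of_bel)
open Pool.Agent.Helper40.RD (bel_of_above)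

/-- The empty state. -/
theorem st_empty (p : ℕ) [Fact p.Prime] (K K₁ : Type) [Field K] [NumberField K] [Field K₁]
    [NumberField K₁] [Algebra K K₁] (ε : K₁) (hε : IsPrimitiveRoot ε p) :
    St p ε (∅ : Set (HeightOneSpectrum (𝓞 K))) (fun _ => (1 : K)) (1 : 𝓞 K₁) := by
  have hp : p.Prime := Fact.out
  refine ⟨⟨Set.finite_empty, ?_, ?_, ?_, ?_, ?_, ?_⟩, one_ne_zero, ?_, ?_, ⟨?_, ?_⟩⟩
  · intro w hw; exact absurd hw (Set.notMem_empty w)
  · intro w hw; exact absurd hw (Set.notMem_empty w)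
  · intro w hw; exact absurd hw (Set.notMem_empty w)
  · intro w hw; exact absurd hw (Set.notMem_empty w)
  · intro w hw; exact absurd hw (Set.notMem_empty w)
  · intro w hw; exact absurd hw (Set.notMem_empty w)
  · rw [sub_self]; exact dvd_zero _
  · intro τ
    have hNZ : NeZero p := ⟨hp.ne_zero⟩
    obtain ⟨n, -, hn⟩ := hε.eq_pow_of_pow_eq_one (ξ := τ ε) (by
      rw [← map_pow, hε.pow_eq_one, map_one])
    refine ⟨n, 1, hn.symm, ?_⟩
    have h1 : ((1 : 𝓞 K₁) : K₁) = 1 := rfl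
    rw [h1, map_one, one_pow, one_pow, mul_one]
  · intro W w _ _ _
    have h1 : ((1 : 𝓞 K₁) : K₁) = 1 := rfl
    have h2 : ordv W ((1 : 𝓞 K₁) : K₁) = 0 := by
      unfold ordv
      rw [h1, map_one, WithZero.log_one, neg_zero]
    rw [h2]; exact dvd_zero _
  · intro w hw; exact absurd hw (Set.notMem_empty w)

theorem pz_empty {F : Type} [Field F] [NumberField F] (s : ℝ) :
    pz (∅ : Set (HeightOneSpectrum (𝓞 F))) s = 0 := by
  unfold pz
  exact tsum_empty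

theorem dens_empty {F : Type} [Field F] [NumberField F] :
    Dens (∅ : Set (HeightOneSpectrum (𝓞 F))) 0 := by
  refine ⟨0, fun s _ _ => ?_⟩
  rw [pz_empty, zero_mul, add_zero]

theorem thin_empty {F : Type} [Field F] [NumberField F] :
    Thin (∅ : Set (HeightOneSpectrum (𝓞 F))) := by
  refine ⟨0, fun s _ _ => ?_⟩
  rw [pz_empty]

theorem finite_ncop {F : Type} [Field F] [NumberField F] (𝔫 : Ideal (𝓞 F)) (h : 𝔫 ≠ ⊥) :
    {Q : HeightOneSpectrum (𝓞 F) | ¬ Q.asIdeal ⊔ 𝔫 = ⊤}.Finite := by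
  refine (Ideal.finite_factors (I := 𝔫) h).subset fun Q hQ => ?_
  show Q.asIdeal ∣ 𝔫
  rw [Ideal.dvd_iff_le, Q.isMaximal.eq_of_le hQ le_sup_left]
  exact le_sup_right

theorem l_ini (h1 : L_OME) (h2 : L_FRE) (h3 : L_PIK) (h4 : L_ADD) :
    Pool.Agent.Helper11.LE.L_INI := by
  classical
  intro p hpF K K₁ _ _ _ _ _ ε hC Z hZ
  have hp : p.Prime := hpF.out
  have hgal : IsGalois K K₁ := hC.gal
  have hS0 := st_empty p K K₁ ε hC.prim
  have hpK₁ : (p : 𝓞 K₁) ≠ 0 := Nat.cast_ne_zero.2 hp.ne_zero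
  obtain ⟨𝔫', n, η, hle, -, hfam, -, hii⟩ := h1 p K K₁ ε hC (Ideal.span {(p : 𝓞 K₁) ^ 3})
    (by rw [Ne, Ideal.span_singleton_eq_bot]; exact pow_ne_zero _ hpK₁)
  obtain ⟨Z₁, hZ₁, hfre⟩ := h2 K K₁
  -- the primes allowed
  obtain ⟨A, hA⟩ : ∃ A : Set (HeightOneSpectrum (𝓞 K₁)), A = {Q | Q ∉ Z₁ ∧
      Q.asIdeal ⊔ 𝔫' = ⊤ ∧ bel K Q ∉ Z ∧ (Ideal.absNorm Q.asIdeal).Prime} := ⟨_, rfl⟩
  have hAinf : A.Infinite := by
    intro hAfin
    obtain ⟨v, -, -, -, hv, hvp⟩ := (h3 K₁).1 ∅ ∅ ∅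
      (Z₁ ∪ {Q | ¬ Q.asIdeal ⊔ 𝔫' = ⊤} ∪ {Q | bel K Q ∈ Z} ∪ A) 0 0 dens_empty dens_empty
      (by norm_num) thin_empty
      (((hZ₁.union (finite_ncop 𝔫' hfam.ne)).union (finite_above Z hZ)).union hAfin)
    simp only [Set.mem_union, Set.mem_ofPred_eq, not_or, not_not] at hv
    apply hv.2
    rw [hA]
    exact ⟨hv.1.1.1, hv.1.1.2, hv.1.2, hvp⟩
  have hBinf : (bel K '' A).Infinite := by
    intro hBfin
    apply hAinf
    refine (finite_above (K₁ := K₁) (bel K '' A) hBfin).subset fun Q hQ => ?_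
    exact ⟨Q, hQ, rfl⟩
  have hnon : Nonempty (HeightOneSpectrum (𝓞 K₁)) := ⟨hAinf.nonempty.choose⟩
  choose! Qf hQf1 hQf2 using (fun q (hq : q ∈ bel K '' A) => hq)
  obtain ⟨q₁, hq₁, q₂, hq₂, hne, heq⟩ := hBinf.exists_ne_map_eq_of_mapsTo
    (f := fun q => fun j : Fin n => η j (Qf q).asIdeal) (t := Set.univ)
    (Set.mapsTo_univ _ _) Set.finite_univ
  have hQ₁ := hQf1 q₁ hq₁
  have hQ₂ := hQf1 q₂ hq₂
  have hb₁ := hQf2 q₁ hq₁
  have hb₂ := hQf2 q₂ hq₂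
  obtain ⟨Q₁, hQ₁e⟩ : ∃ Q, Q = Qf q₁ := ⟨_, rfl⟩
  obtain ⟨Q₂, hQ₂e⟩ : ∃ Q, Q = Qf q₂ := ⟨_, rfl⟩
  simp only [← hQ₁e, ← hQ₂e] at hQ₁ hQ₂ hb₁ hb₂ heq
  rw [hA] at hQ₁ hQ₂
  have hf₁ : FreeP K Q₁ := (hfre Q₁ hQ₁.1 hQ₁.2.2.2).1
  have hf₂ : FreeP K Q₂ := (hfre Q₂ hQ₂.1 hQ₂.2.2.2).1
  have hp1 : ¬ (p : ℤ) ∣ 1 := by
    intro h
    have h5 := Int.eq_one_of_dvd_one (by positivity) h
    exact hp.one_lt.ne' (by exact_mod_cast h5)
  obtain ⟨b, hb0, hbn, hbO, hbW⟩ := hii 2 ![Q₁, Q₂] ![1, -1] (by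
      intro i
      fin_cases i
      · exact ⟨hQ₁.2.1, hf₁, hp1⟩
      · refine ⟨hQ₂.2.1, hf₂, ?_⟩
        show ¬ (p : ℤ) ∣ -1
        rw [dvd_neg]; exact hp1) (by
      intro i j hij hc
      have h5 := bel_eq_of_conj hc
      fin_cases i <;> fin_cases j
      · exact hij rfl
      · have h6 : bel K Q₁ = bel K Q₂ := h5
        rw [hb₁, hb₂] at h6
        exact hne h6
      · have h6 : bel K Q₂ = bel K Q₁ := h5
        rw [hb₁, hb₂] at h6
        exact hne h6.symm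
      · exact hij rfl) (by
      intro j
      rw [Fin.sum_univ_two]
      show ((1 : ℤ) : ZMod p) * η j Q₁.asIdeal + ((-1 : ℤ) : ZMod p) * η j Q₂.asIdeal = 0
      have h5 : η j Q₁.asIdeal = η j Q₂.asIdeal := congrFun heq j
      rw [h5]
      push_cast
      ring)
  have hpQ : ∀ Q : HeightOneSpectrum (𝓞 K₁), Q.asIdeal ⊔ 𝔫' = ⊤ →
      (bel K Q).valuation K (p : K) = 1 := by
    intro Q hQ
    rw [← natCast_notMem_iff]
    intro h5
    have h6 : (p : 𝓞 K₁) ∈ Q.asIdeal := (natCast_bel (K := K) p Q).2 h5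
    have h7 : 𝔫' ≤ Q.asIdeal := by
      refine hle.trans ?_
      rw [Ideal.span_singleton_le_iff_mem]
      exact Ideal.pow_mem_of_mem _ h6 3 (by norm_num)
    rw [sup_eq_left.2 h7] at hQ
    exact Q.isPrime.ne_top hQ
  obtain ⟨al', hSt, -⟩ := h4 p K K₁ ε hC ∅ (fun _ => 1) 1 hS0 b {q₁, q₂} hb0 (by
      rw [mul_one]; exact hle hbn) hbO (by
      intro w hw
      refine ⟨Set.notMem_empty w, ?_⟩
      rw [Finset.mem_insert, Finset.mem_singleton] at hw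
      rcases hw with rfl | rfl
      · rw [← hb₁]; exact hpQ Q₁ hQ₁.2.1
      · rw [← hb₂]; exact hpQ Q₂ hQ₂.2.1) (by
      intro W w hWw
      have hWw' : bel K W = w := bel_of_above hWw
      refine ⟨?_, ?_⟩
      · intro hw
        rw [Finset.mem_insert, Finset.mem_singleton] at hw
        rcases hw with h5 | h5
        · have hc : ConjP K W Q₁ := conj_of_bel' (by rw [hWw', h5, hb₁])
          exact ⟨free_of_conj hc hf₁, (hbW W).1 ⟨0, hc⟩⟩
        · have hc : ConjP K W Q₂ := conj_of_bel' (by rw [hWw', h5, hb₂])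
          exact ⟨free_of_conj hc hf₂, (hbW W).1 ⟨1, hc⟩⟩
      · intro hw
        rw [Finset.mem_insert, Finset.mem_singleton, not_or] at hw
        refine (hbW W).2 fun i hc => ?_
        have h5 := bel_eq_of_conj hc
        rw [hWw'] at h5
        fin_cases i
        · have h6 : w = bel K Q₁ := h5
          rw [hb₁] at h6
          exact hw.1 h6
        · have h6 : w = bel K Q₂ := h5
          rw [hb₂] at h6
          exact hw.2 h6)
  refine ⟨_, al', 1 * b, hSt, q₁, ?_, ?_⟩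
  · right
    rw [Finset.mem_coe, Finset.mem_insert]
    exact Or.inl rfl
  · rw [← hb₁]; exact hQ₁.2.2.1

end Pool.Agent.Helper98.LE
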